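import Pool.Agent.H.MP_613bd6_al.Fin

set_option autoImplicit false

namespace Pool.Agent.Results.MP_613bd6_al.Central

open Pool.Agent.H.MP_613bd6_al

theorem result (N : ℕ) (μ : ℕ → ℕ) (hμ : ∀ k, k ≤ N → 0 < μ k)
    (H : Type) [Ring H] [Algebra (RatFunc ℂ) H] (T : G (ms μ (N + 1)) → H)
    (hT : Rels (RatFunc.X : RatFunc ℂ) T)
    (hg : Algebra.adjoin (RatFunc ℂ) (Set.range T) = ⊤) :
    (∀ σ : Equiv.Perm (Fin (ms μ (N + 1))), (∃ w, Red w σ) ∧ ∀ w, Red w σ →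
      Tw T σ = (w.map T).prod) ∧
    IsUnit (Tgam T N μ) ∧
    ∀ h : H, (∃ a, h = eMu (RatFunc.X : RatFunc ℂ) T N μ * a * eMu (RatFunc.X : RatFunc ℂ) T N μ) →
      XX (RatFunc.X : RatFunc ℂ) T N μ * h = h * XX (RatFunc.X : RatFunc ℂ) T N μ :=
  ⟨fun σ => ⟨exists_red σ, fun _ h => Tw_eq hT h⟩, tgam_unit RatFunc.X_ne_zero N μ hμ hT,
    fun _ ⟨a, h⟩ => h ▸ main hq_sum N μ hμ hT hg a⟩

end Pool.Agent.Results.MP_613bd6_al.Central
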